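import Pool.Agent.R59.D2.G6Card

namespace Pool.Agent.Results.MP_dc87a5_co.GirthSixCubeRoot

open Pool.Agent.R59.D2 Asymptotics Filter

/-- `ex_2(P_6)(n)` is bounded below by a positive constant times `n^(1/3)`; in particular it is not
`O(n^(1/4))`. -/
theorem result :
    ((fun n : ℕ => (n : ℝ) ^ (1 / 3 : ℝ)) =O[atTop] fun n : ℕ => (ex 2 6 n : ℝ)) ∧
    ¬ ((fun n : ℕ => (ex 2 6 n : ℝ)) =O[atTop] fun n : ℕ => (n : ℝ) ^ (1 / 4 : ℝ)) := by
  have h : (fun n : ℕ => (n : ℝ) ^ (1 / 3 : ℝ)) =O[atTop] fun n : ℕ => (ex 2 6 n : ℝ) := by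
    have h0 := ex_lower (k := 2) (g := 6) (d := 3) (K := 23) (by norm_num)
      (fun a ha n hn => H6.lower a ha n hn) (by norm_num)
    apply bigO_of_lower (e := 1 / 3) (K := 23) (by norm_num) (by norm_num)
    intro n
    have := h0 n
    norm_num at this ⊢
    exact this
  exact ⟨h, not_bigO (by norm_num) h⟩

end Pool.Agent.Results.MP_dc87a5_co.GirthSixCubeRoot
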